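import Mathlib
import Pool.Prelude.Def_F_0680883d

/-!
# Gaps of dilates of unions of progressions with two differences (MP_3c1bce_co)
-/

set_option autoImplicit false

open Finset
open scoped Pointwise

namespace Pool.Agent.Lib.MP_3c1bce_co.TwoDiff

variable {p : ℕ} [Fact p.Prime]

/-- The `L` positions `x` with `z ∈ {x, …, x + L - 1}`. -/
def I (L : ℕ) (z : ZMod p) : Finset (ZMod p) := (range L).image (fun i : ℕ => z - (i : ZMod p))

lemma card_I (L : ℕ) (z : ZMod p) : (I L z).card ≤ L := by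
  unfold I
  exact card_image_le.trans (by simp)

lemma card_diff (L : ℕ) (z : ZMod p) (u : ℤ) :
    (I L z \ I L (z + (u : ZMod p))).card ≤ u.natAbs := by
  obtain ⟨m, rfl | rfl⟩ := u.eq_nat_or_neg
  · rw [Int.natAbs_natCast]
    have hs : I L z \ I L (z + ((m : ℤ) : ZMod p)) ⊆
        (Ico (L - m) L).image (fun i : ℕ => z - (i : ZMod p)) := by
      intro y hy
      rw [mem_sdiff] at hy
      obtain ⟨h1, h2⟩ := hy
      unfold I at h1 h2
      rw [mem_image] at h1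
      obtain ⟨i, hi, rfl⟩ := h1
      rw [mem_range] at hi
      rw [mem_image]
      refine ⟨i, ?_, rfl⟩
      rw [mem_Ico]
      refine ⟨?_, hi⟩
      by_contra hc
      apply h2
      rw [mem_image]
      refine ⟨i + m, by rw [mem_range]; omega, ?_⟩
      push_cast
      ring
    refine (card_le_card hs).trans (card_image_le.trans ?_)
    rw [Nat.card_Ico]
    omega
  · rw [Int.natAbs_neg, Int.natAbs_natCast]
    have hs : I L z \ I L (z + ((-(m : ℤ) : ℤ) : ZMod p)) ⊆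
        (range m).image (fun i : ℕ => z - (i : ZMod p)) := by
      intro y hy
      rw [mem_sdiff] at hy
      obtain ⟨h1, h2⟩ := hy
      unfold I at h1 h2
      rw [mem_image] at h1
      obtain ⟨i, hi, rfl⟩ := h1
      rw [mem_range] at hi
      rw [mem_image]
      refine ⟨i, ?_, rfl⟩
      rw [mem_range]
      by_contra hc
      rw [not_lt] at hc
      apply h2
      rw [mem_image]
      refine ⟨i - m, by rw [mem_range]; omega, ?_⟩
      rw [Nat.cast_sub hc]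
      push_cast
      ring
    refine (card_le_card hs).trans (card_image_le.trans ?_)
    rw [card_range]

lemma exists_last {A : Finset (ZMod p)} {q : ZMod p} (hq : q ≠ 0) (hA : A.card < p)
    (P : ZMod p → Prop) {a : ZMod p} (ha : a ∈ A) (hP : P a) :
    ∃ a' ∈ A, P a' ∧ (a' + q ∉ A ∨ ¬ P (a' + q)) := by
  by_contra hcon
  have hcon' : ∀ a' ∈ A, P a' → a' + q ∈ A ∧ P (a' + q) := by
    intro a' h1 h2
    by_contra h3
    apply hcon
    refine ⟨a', h1, h2, ?_⟩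
    by_contra h4
    rw [not_or, not_not, not_not] at h4
    exact h3 h4
  have h : ∀ j : ℕ, a + j * q ∈ A ∧ P (a + j * q) := by
    intro j
    induction j with
    | zero => simpa using ⟨ha, hP⟩
    | succ j ih =>
      have := hcon' _ ih.1 ih.2
      rw [show a + ((j + 1 : ℕ) : ZMod p) * q = a + j * q + q by push_cast; ring]
      exact this
  have huniv : A = univ := by
    ext z
    simp only [mem_univ, iff_true]
    have := (h ((z - a) / q).val).1
    rwa [ZMod.natCast_zmod_val, div_mul_cancel₀ _ hq, add_sub_cancel] at this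
  rw [huniv, card_univ, ZMod.card] at hA
  exact lt_irrefl _ hA

lemma card_union (A : Finset (ZMod p)) (q c : ZMod p) (hq : q ≠ 0) (hA : A.card < p) (L : ℕ)
    (u : ℤ) (hu : c * q = (u : ZMod p)) :
    (A.biUnion (fun a => I L (c * a))).card ≤
      (A.filter (fun a => a + q ∉ A)).card * L + A.card * u.natAbs := by
  classical
  have hs : A.biUnion (fun a => I L (c * a)) ⊆ A.biUnion (fun a =>
      if a + q ∈ A then I L (c * a) \ I L (c * a + (u : ZMod p)) else I L (c * a)) := by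
    intro y hy
    rw [mem_biUnion] at hy
    obtain ⟨a, ha, hy⟩ := hy
    obtain ⟨a', ha', h1, h2⟩ := exists_last hq hA (fun z => y ∈ I L (c * z)) ha hy
    rw [mem_biUnion]
    refine ⟨a', ha', ?_⟩
    split_ifs with h
    · rw [mem_sdiff]
      refine ⟨h1, ?_⟩
      rcases h2 with h2 | h2
      · exact absurd h h2
      · rwa [mul_add, hu] at h2
    · exact h1
  refine (card_le_card hs).trans (card_biUnion_le.trans ?_)
  have hb : ∀ a ∈ A, (if a + q ∈ A then I L (c * a) \ I L (c * a + (u : ZMod p))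
      else I L (c * a)).card ≤ (if a + q ∉ A then L else 0) + u.natAbs := by
    intro a _
    by_cases h : a + q ∈ A
    · rw [if_pos h, if_neg (not_not.2 h), zero_add]
      exact card_diff L _ u
    · rw [if_neg h, if_pos h]
      exact (card_I L _).trans (Nat.le_add_right _ _)
  refine (sum_le_sum hb).trans (le_of_eq ?_)
  rw [sum_add_distrib, ← sum_filter, sum_const, sum_const, smul_eq_mul, smul_eq_mul]

lemma sum_abs (V : ℕ) : ∑ v ∈ Icc (-(V : ℤ)) V, |v| = (V : ℤ) * (V + 1) := by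
  induction V with
  | zero => simp
  | succ V ih =>
    have h : Icc (-((V + 1 : ℕ) : ℤ)) ((V + 1 : ℕ) : ℤ) =
        insert ((V : ℤ) + 1) (insert (-((V : ℤ) + 1)) (Icc (-(V : ℤ)) V)) := by
      ext x
      simp only [mem_insert, mem_Icc]
      push_cast
      omega
    have h1 : (-((V : ℤ) + 1)) ∉ Icc (-(V : ℤ)) V := by
      rw [mem_Icc]; omega
    have h2 : ((V : ℤ) + 1) ∉ insert (-((V : ℤ) + 1)) (Icc (-(V : ℤ)) V) := by
      rw [mem_insert, mem_Icc]; omega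
    rw [h, sum_insert h2, sum_insert h1, ih, abs_neg, abs_of_nonneg (by positivity)]
    push_cast
    ring

lemma arith {v m a b P : ℤ} (z1 : b * v ≤ m) (z2 : m < b * v + b) (z3 : 8 * m ≤ 3 * P)
    (z4 : 3 * P ≤ 8 * m + 7) (z5 : 4 * (a * b) ≤ P) (z6 : a ≤ b) (z7 : 1000 ≤ P) (z8 : 1 ≤ a)
    (z9 : 0 ≤ v) (z10 : 0 ≤ m)
    (hlow : (2 * v + 1) * (2 * m - a + 2) - 2 * b * (v * (v + 1)) ≤ a * P) : False := by
  have hb : 0 ≤ b := by linarith
  have t1 : a * a ≤ a * b := mul_le_mul_of_nonneg_left z6 (by linarith)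
  have t3 : 1000 * P ≤ P * P := mul_le_mul_of_nonneg_right z7 (by linarith)
  have y1 : 63 * a ≤ P := by
    by_contra h
    have t2 : (P + 1) * (P + 1) ≤ (63 * a) * (63 * a) :=
      mul_self_le_mul_self (by linarith) (by omega)
    linarith
  have y2 : b * ((2 * v + 1) * (2 * m - a + 2) - 2 * b * (v * (v + 1))) ≤ b * (a * P) :=
    mul_le_mul_of_nonneg_left hlow hb
  have y3 : 2 * m ^ 2 ≤ b * ((2 * v + 1) * (2 * m) - 2 * b * (v * (v + 1))) := by
    obtain ⟨s, hs⟩ : ∃ s, m = b * v + s := ⟨m - b * v, by ring⟩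
    have s0 : 0 ≤ s := by linarith
    have s1 : 0 ≤ b - s := by linarith
    have s2 := mul_nonneg s0 s1
    subst hs
    linarith
  have y4 : b * (2 * v + 1) ≤ 2 * m + b := by linarith
  have y4' : 0 ≤ b * (2 * v + 1) := mul_nonneg hb (by linarith)
  have y5 : b * (2 * v + 1) * a ≤ (2 * m + b) * a := mul_le_mul_of_nonneg_right y4 (by linarith)
  have y6 : 2 * m ^ 2 ≤ a * b * P + (2 * m + b) * a := by linarith
  have y7 : 4 * (a * b) * P ≤ P * P := mul_le_mul_of_nonneg_right z5 (by linarith)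
  have y8 : (8 * m) * (63 * a) ≤ (3 * P) * P := mul_le_mul z3 y1 (by linarith) (by linarith)
  have y9 : (3 * P - 7) * (3 * P - 7) ≤ (8 * m) * (8 * m) :=
    mul_self_le_mul_self (by linarith) (by linarith)
  linarith

/-- More than `p` integer points in the rhombus. -/
lemma rhombus {n₁ n₂ : ℕ} (h1 : 1 ≤ n₁) (h12 : n₁ ≤ n₂) (hn : 4 * (n₁ * n₂) ≤ p)
    (hp : 1000 ≤ p) :
    ∃ B : Finset (ℤ × ℤ), p < B.card ∧
      ∀ x ∈ B, 8 * ((n₁ : ℤ) * |x.2| + n₂ * |x.1|) ≤ 3 * p := by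
  set M : ℕ := 3 * p / 8 with hM
  set V : ℕ := M / n₂ with hV
  have hM1 : 8 * M ≤ 3 * p := by omega
  have hM2 : 3 * p ≤ 8 * M + 7 := by omega
  have hn2 : 1 ≤ n₂ := h1.trans h12
  have hn1pos : (0 : ℤ) < n₁ := by exact_mod_cast h1
  have hVM : n₂ * V ≤ M := Nat.mul_div_le M n₂
  have hVM2 : M < n₂ * V + n₂ := by
    have h0 : M < V * n₂ + n₂ := Nat.lt_div_mul_add (a := M) hn2
    rw [mul_comm n₂ V]
    exact h0
  let w : ℤ → ℤ := fun v => ((M : ℤ) - n₂ * |v|) / n₁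
  have hMv : ∀ v ∈ Icc (-(V : ℤ)) V, 0 ≤ (M : ℤ) - n₂ * |v| := by
    intro v hv
    rw [mem_Icc] at hv
    have h3 : |v| ≤ V := abs_le.2 hv
    have h4 : (n₂ : ℤ) * |v| ≤ n₂ * V := mul_le_mul_of_nonneg_left h3 (by positivity)
    have h5 : (n₂ : ℤ) * V ≤ M := by exact_mod_cast hVM
    linarith
  let B : Finset (ℤ × ℤ) := (Icc (-(V : ℤ)) V).biUnion
    (fun v => (Icc (-(w v)) (w v)).image (fun u => (v, u)))
  have hcard : B.card = ∑ v ∈ Icc (-(V : ℤ)) V, (Icc (-(w v)) (w v)).card := by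
    show (Finset.biUnion _ _).card = _
    rw [card_biUnion]
    · refine sum_congr rfl fun v _ => ?_
      rw [card_image_of_injective]
      intro a b hab
      exact (Prod.mk.inj hab).2
    · intro a _ b _ hab
      rw [Function.onFun, Finset.disjoint_left]
      intro z hz hz'
      rw [mem_image] at hz hz'
      obtain ⟨_, _, rfl⟩ := hz
      obtain ⟨_, _, h⟩ := hz'
      exact hab (Prod.mk.inj h).1.symm
  refine ⟨B, ?_, ?_⟩
  · by_contra hcon
    rw [not_lt] at hcon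
    have hlow : ((2 * (V : ℤ) + 1) * (2 * M - n₁ + 2) - 2 * n₂ * (V * (V + 1))) ≤ n₁ * p := by
      have e1 : ∑ v ∈ Icc (-(V : ℤ)) V, (2 * ((M : ℤ) - n₂ * |v|) - n₁ + 2) =
          (2 * (V : ℤ) + 1) * (2 * M - n₁ + 2) - 2 * n₂ * (V * (V + 1)) := by
        have e2 : ∀ v ∈ Icc (-(V : ℤ)) V, (2 * ((M : ℤ) - n₂ * |v|) - n₁ + 2) =
            (2 * (M : ℤ) - n₁ + 2) - 2 * n₂ * |v| := fun v _ => by ring
        rw [sum_congr rfl e2, sum_sub_distrib, ← mul_sum, sum_abs, sum_const, nsmul_eq_mul,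
          Int.card_Icc]
        have : (((V : ℤ) + 1 - -(V : ℤ)).toNat : ℤ) = 2 * V + 1 := by
          rw [Int.toNat_of_nonneg (by
            have h0 : (0 : ℤ) ≤ V := Int.natCast_nonneg V
            linarith)]
          ring
        rw [this]
      rw [← e1]
      have e3 : ∑ v ∈ Icc (-(V : ℤ)) V, (2 * ((M : ℤ) - n₂ * |v|) - n₁ + 2) ≤
          ∑ v ∈ Icc (-(V : ℤ)) V, (n₁ : ℤ) * ((Icc (-(w v)) (w v)).card : ℤ) := by
        refine sum_le_sum fun v hv => ?_
        have h3 := hMv v hv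
        have h4 : 0 ≤ w v := Int.ediv_nonneg h3 hn1pos.le
        have h5 : ((Icc (-(w v)) (w v)).card : ℤ) = 2 * w v + 1 := by
          rw [Int.card_Icc, Int.toNat_of_nonneg (by linarith)]; ring
        rw [h5]
        have h6 : ((M : ℤ) - n₂ * |v|) < (w v + 1) * n₁ := Int.lt_ediv_add_one_mul_self _ hn1pos
        nlinarith
      refine e3.trans ?_
      rw [← mul_sum, ← Nat.cast_sum, ← hcard]
      exact mul_le_mul_of_nonneg_left (by exact_mod_cast hcon) hn1pos.le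
    exact arith (by exact_mod_cast hVM) (by exact_mod_cast hVM2) (by exact_mod_cast hM1)
      (by exact_mod_cast hM2) (by exact_mod_cast hn) (by exact_mod_cast h12) (by exact_mod_cast hp)
      (by exact_mod_cast h1) (Int.natCast_nonneg V) (Int.natCast_nonneg M) hlow
  · intro x hx
    have hx' : x ∈ (Icc (-(V : ℤ)) V).biUnion
      (fun v => (Icc (-(w v)) (w v)).image (fun u => (v, u))) := hx
    rw [mem_biUnion] at hx'
    obtain ⟨v, hv, hx'⟩ := hx'
    rw [mem_image] at hx'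
    obtain ⟨u, hu, rfl⟩ := hx'
    rw [mem_Icc] at hu
    have h3 : |u| ≤ w v := abs_le.2 hu
    have h4 : w v * n₁ ≤ (M : ℤ) - n₂ * |v| := Int.ediv_mul_le _ hn1pos.ne'
    have h5 : (n₁ : ℤ) * |u| ≤ n₁ * w v := mul_le_mul_of_nonneg_left h3 hn1pos.le
    have h6 : 8 * (M : ℤ) ≤ 3 * p := by exact_mod_cast hM1
    show 8 * ((n₁ : ℤ) * |u| + n₂ * |v|) ≤ 3 * p
    nlinarith

lemma exists_c_le {n₁ n₂ : ℕ} (h1 : 1 ≤ n₁) (h12 : n₁ ≤ n₂) (hn : 4 * (n₁ * n₂) ≤ p)
    (hp : 1000 ≤ p) (q₁ q₂ : ZMod p) (hq1 : q₁ ≠ 0) :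
    ∃ c : ZMod p, c ≠ 0 ∧ ∃ u v : ℤ, c * q₁ = (u : ZMod p) ∧ c * q₂ = (v : ZMod p) ∧
      4 * (n₁ * u.natAbs + n₂ * v.natAbs) ≤ 3 * p := by
  obtain ⟨B, hB, hB2⟩ := rhombus (p := p) h1 h12 hn hp
  have hcard : (univ : Finset (ZMod p)).card < B.card := by
    rw [card_univ, ZMod.card]; exact hB
  obtain ⟨x, hx, y, hy, hxy, he⟩ := exists_ne_map_eq_of_card_lt_of_maps_to hcard
    (f := fun x : ℤ × ℤ => q₂ * (x.2 : ZMod p) - q₁ * (x.1 : ZMod p)) (fun _ _ => mem_univ _)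
  have bx := hB2 x hx
  have bY := hB2 y hy
  set u : ℤ := x.2 - y.2 with hu
  set v : ℤ := x.1 - y.1 with hv
  have hn1pos : (1 : ℤ) ≤ n₁ := by exact_mod_cast h1
  have hn2pos : (1 : ℤ) ≤ n₂ := by exact_mod_cast h1.trans h12
  have hsum : 4 * ((n₁ : ℤ) * |u| + n₂ * |v|) ≤ 3 * p := by
    have a1 : |u| ≤ |x.2| + |y.2| := abs_sub _ _
    have a2 : |v| ≤ |x.1| + |y.1| := abs_sub _ _
    have a3 : (n₁ : ℤ) * |u| ≤ n₁ * (|x.2| + |y.2|) := mul_le_mul_of_nonneg_left a1 (by linarith)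
    have a4 : (n₂ : ℤ) * |v| ≤ n₂ * (|x.1| + |y.1|) := mul_le_mul_of_nonneg_left a2 (by linarith)
    nlinarith
  have hqu : q₂ * (u : ZMod p) = q₁ * (v : ZMod p) := by
    rw [hu, hv]
    push_cast
    have he' : q₂ * (x.2 : ZMod p) - q₁ * (x.1 : ZMod p) =
      q₂ * (y.2 : ZMod p) - q₁ * (y.1 : ZMod p) := he
    linear_combination he'
  have hpz : (1000 : ℤ) ≤ p := by exact_mod_cast hp
  have hsmall : ∀ z : ℤ, |z| < p → (z : ZMod p) = 0 → z = 0 := by
    intro z hz h0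
    rw [ZMod.intCast_zmod_eq_zero_iff_dvd] at h0
    exact Int.eq_zero_of_abs_lt_dvd h0 hz
  have hul : |u| < p := by
    have : |u| ≤ n₁ * |u| := le_mul_of_one_le_left (abs_nonneg u) hn1pos
    have h0 : 0 ≤ (n₂ : ℤ) * |v| := mul_nonneg (by linarith) (abs_nonneg v)
    linarith
  have hvl : |v| < p := by
    have : |v| ≤ n₂ * |v| := le_mul_of_one_le_left (abs_nonneg v) hn2pos
    have h0 : 0 ≤ (n₁ : ℤ) * |u| := mul_nonneg (by linarith) (abs_nonneg u)
    linarith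
  refine ⟨(u : ZMod p) / q₁, ?_, u, v, ?_, ?_, ?_⟩
  · intro h0
    have hu0 : (u : ZMod p) = 0 := by
      rcases div_eq_zero_iff.1 h0 with h | h
      · exact h
      · exact absurd h hq1
    have hv0 : (v : ZMod p) = 0 := by
      rw [hu0, mul_zero] at hqu
      rcases mul_eq_zero.1 hqu.symm with h | h
      · exact absurd h hq1
      · exact h
    have e1 := hsmall u hul hu0
    have e2 := hsmall v hvl hv0
    apply hxy
    ext
    · omega
    · omega
  · exact div_mul_cancel₀ _ hq1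
  · rw [div_mul_eq_mul_div, mul_comm, hqu, mul_comm q₁, mul_div_assoc, div_self hq1, mul_one]
  · have : 4 * ((n₁ : ℤ) * (u.natAbs : ℤ) + n₂ * (v.natAbs : ℤ)) ≤ 3 * p := by
      rw [Int.natCast_natAbs, Int.natCast_natAbs]; exact hsum
    exact_mod_cast this

lemma exists_c {n₁ n₂ : ℕ} (h1 : 1 ≤ n₁) (h2 : 1 ≤ n₂) (hn : 4 * (n₁ * n₂) ≤ p)
    (hp : 1000 ≤ p) (q₁ q₂ : ZMod p) (hq1 : q₁ ≠ 0) (hq2 : q₂ ≠ 0) :
    ∃ c : ZMod p, c ≠ 0 ∧ ∃ u v : ℤ, c * q₁ = (u : ZMod p) ∧ c * q₂ = (v : ZMod p) ∧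
      4 * (n₁ * u.natAbs + n₂ * v.natAbs) ≤ 3 * p := by
  rcases le_total n₁ n₂ with h | h
  · exact exists_c_le h1 h hn hp q₁ q₂ hq1
  · obtain ⟨c, hc, u, v, hu, hv, hs⟩ := exists_c_le h2 h (by rw [mul_comm n₂]; exact hn) hp q₂ q₁ hq2
    exact ⟨c, hc, v, u, hv, hu, by rw [add_comm]; exact hs⟩

theorem main (hp : 1000 ≤ p) (A₁ A₂ : Finset (ZMod p)) (h1 : A₁.Nonempty) (h2 : A₂.Nonempty)
    (hA : 4 * (A₁.card * A₂.card) ≤ p) (q₁ q₂ : ZMod p) (hq1 : q₁ ≠ 0) (hq2 : q₂ ≠ 0) (L : ℕ)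
    (hL : 4 * (((A₁.filter (fun a => a + q₁ ∉ A₁)).card +
      (A₂.filter (fun a => a + q₂ ∉ A₂)).card) * L) ≤ p) :
    ∃ c : (ZMod p)ˣ, Nc949c4d7.HasGap (c • (A₁ ∪ A₂)) L := by
  classical
  have c1 : 1 ≤ A₁.card := h1.card_pos
  have c2 : 1 ≤ A₂.card := h2.card_pos
  have l1 : A₁.card < p := by nlinarith
  have l2 : A₂.card < p := by nlinarith
  obtain ⟨c, hc, u, v, hu, hv, hs⟩ := exists_c c1 c2 hA hp q₁ q₂ hq1 hq2
  refine ⟨Units.mk0 c hc, ?_⟩
  have u1 := card_union A₁ q₁ c hq1 l1 L u hu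
  have u2 := card_union A₂ q₂ c hq2 l2 L v hv
  set U₁ := A₁.biUnion (fun a => I L (c * a)) with hU1
  set U₂ := A₂.biUnion (fun a => I L (c * a)) with hU2
  have hodd : p % 2 = 1 := by
    rcases (Fact.out : p.Prime).eq_two_or_odd with h | h
    · omega
    · exact h
  have hlt : (U₁ ∪ U₂).card < p := by
    have h3 := card_union_le U₁ U₂
    set b₁ := (A₁.filter (fun a => a + q₁ ∉ A₁)).card
    set b₂ := (A₂.filter (fun a => a + q₂ ∉ A₂)).card
    have h4 : (b₁ + b₂) * L = b₁ * L + b₂ * L := add_mul _ _ _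
    rw [h4] at hL
    generalize b₁ * L = s at *
    generalize b₂ * L = t at *
    generalize A₁.card * u.natAbs = s' at *
    generalize A₂.card * v.natAbs = t' at *
    omega
  obtain ⟨x, hx⟩ : ∃ x, x ∉ U₁ ∪ U₂ := by
    by_contra hcon
    have : U₁ ∪ U₂ = univ := by
      ext z
      simp only [mem_univ, iff_true]
      by_contra h
      exact hcon ⟨z, h⟩
    rw [this, card_univ, ZMod.card] at hlt
    exact lt_irrefl _ hlt
  refine ⟨x, ?_⟩
  intro i hi hmem
  rw [mem_smul_finset] at hmem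
  obtain ⟨a, ha, hax⟩ := hmem
  have hax' : c * a = x + (i : ZMod p) := hax
  apply hx
  have hI : x ∈ I L (c * a) := by
    unfold I
    rw [mem_image]
    exact ⟨i, mem_range.2 hi, by rw [hax']; ring⟩
  rw [mem_union] at ha ⊢
  rcases ha with ha | ha
  · left
    rw [hU1, mem_biUnion]
    exact ⟨a, ha, hI⟩
  · right
    rw [hU2, mem_biUnion]
    exact ⟨a, ha, hI⟩

end Pool.Agent.Lib.MP_3c1bce_co.TwoDiff
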