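import Pool.Agent.Lib.MP_3c1bce_co.TwoDiff

/-!
# Gaps of dilates of sets with few components with respect to two differences (MP_3c1bce_co)
-/

set_option autoImplicit false

open Finset
open scoped Pointwise

namespace Pool.Agent.Lib.MP_3c1bce_co.TwoDiff

variable {p : ℕ} [Fact p.Prime]

lemma step {V : Type*} (G : SimpleGraph V) {a r : V} (h : G.Reachable a r) (hne : a ≠ r) :
    ∃ a', G.Adj a a' ∧ G.dist a' r < G.dist a r := by
  obtain ⟨w, hw⟩ := h.exists_walk_length_eq_dist
  cases w with
  | nil => exact absurd rfl hne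
  | cons h q =>
    refine ⟨_, h, ?_⟩
    rw [← hw, SimpleGraph.Walk.length_cons]
    exact Nat.lt_succ_of_le (SimpleGraph.dist_le q)

/-- Roots and parents in a graph. -/
lemma exists_parent {V : Type*} (G : SimpleGraph V) :
    ∃ (d : V → ℕ) (R : Set V), (Set.InjOn G.connectedComponentMk R) ∧
      ∀ a, a ∉ R → ∃ a', G.Adj a a' ∧ d a' < d a := by
  classical
  let root : G.ConnectedComponent → V := fun C => C.exists_rep.choose
  have hroot : ∀ C, G.connectedComponentMk (root C) = C := fun C => C.exists_rep.choose_spec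
  refine ⟨fun a => G.dist a (root (G.connectedComponentMk a)),
    {a | root (G.connectedComponentMk a) = a}, ?_, ?_⟩
  · intro a ha b hb hab
    have ha' : root (G.connectedComponentMk a) = a := ha
    have hb' : root (G.connectedComponentMk b) = b := hb
    rw [← ha', ← hb', hab]
  · intro a ha
    have ha' : root (G.connectedComponentMk a) ≠ a := ha
    have hr : G.Reachable a (root (G.connectedComponentMk a)) :=
      SimpleGraph.ConnectedComponent.exact (hroot _).symm
    obtain ⟨a', h, hlt⟩ := step G hr (Ne.symm ha')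
    refine ⟨a', h, ?_⟩
    have hc : G.connectedComponentMk a' = G.connectedComponentMk a :=
      SimpleGraph.ConnectedComponent.sound h.reachable.symm
    show G.dist a' (root (G.connectedComponentMk a')) < G.dist a (root (G.connectedComponentMk a))
    rw [hc]
    exact hlt

/-- The graph on `A` in which two elements are adjacent iff they differ by `± q₁` or `± q₂`. -/
def gr (A : Finset (ZMod p)) (q₁ q₂ : ZMod p) : SimpleGraph {a // a ∈ A} :=
  SimpleGraph.fromRel (fun a b => (b : ZMod p) - a = q₁ ∨ (b : ZMod p) - a = q₂)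

lemma card_union_comp (A : Finset (ZMod p)) (q₁ q₂ : ZMod p) :
    ∃ E₁ E₂ : ℕ, E₁ + E₂ ≤ A.card ∧ ∀ (L : ℕ) (c : ZMod p) (u v : ℤ),
      c * q₁ = (u : ZMod p) → c * q₂ = (v : ZMod p) →
      (A.biUnion (fun a => I L (c * a))).card ≤
        Nat.card (gr A q₁ q₂).ConnectedComponent * L + (E₁ * u.natAbs + E₂ * v.natAbs) := by
  classical
  obtain ⟨d, R, hR, hpar⟩ := exists_parent (gr A q₁ q₂)
  let par : {a // a ∈ A} → {a // a ∈ A} := fun a => if h : a ∉ R then (hpar a h).choose else a
  have hpar1 : ∀ a, a ∉ R → (gr A q₁ q₂).Adj a (par a) ∧ d (par a) < d a := by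
    intro a h
    have : par a = (hpar a h).choose := dif_pos h
    rw [this]
    exact (hpar a h).choose_spec
  let t : {a // a ∈ A} → Prop := fun a =>
    ((par a : ZMod p) - a = q₁ ∨ (a : ZMod p) - par a = q₁)
  refine ⟨(univ.filter (fun a : {a // a ∈ A} => a ∉ R ∧ t a)).card,
    (univ.filter (fun a : {a // a ∈ A} => a ∉ R ∧ ¬ t a)).card, ?_, ?_⟩
  · rw [← card_union_of_disjoint]
    · refine (card_le_univ _).trans (le_of_eq ?_)
      rw [Fintype.card_coe]
    · rw [Finset.disjoint_left]
      intro a h1 h2
      rw [mem_filter] at h1 h2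
      exact h2.2.2 h1.2.2
  · intro L c u v hu hv
    let J : {a // a ∈ A} → Finset (ZMod p) := fun a =>
      if a ∈ R then I L (c * (a : ZMod p)) else I L (c * (a : ZMod p)) \ I L (c * (par a : ZMod p))
    have hs : A.biUnion (fun a => I L (c * a)) ⊆ univ.biUnion J := by
      intro y hy
      rw [mem_biUnion] at hy
      obtain ⟨a, ha, hy⟩ := hy
      have key : ∀ (n : ℕ) (b : {a // a ∈ A}), d b ≤ n → y ∈ I L (c * (b : ZMod p)) →
          ∃ b', y ∈ J b' := by
        intro n
        induction n with
        | zero =>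
          intro b hb hyb
          refine ⟨b, ?_⟩
          have : b ∈ R := by
            by_contra h
            have := (hpar1 b h).2
            omega
          show y ∈ (if b ∈ R then _ else _)
          rw [if_pos this]
          exact hyb
        | succ n ih =>
          intro b hb hyb
          by_cases h : b ∈ R
          · refine ⟨b, ?_⟩
            show y ∈ (if b ∈ R then _ else _)
            rw [if_pos h]
            exact hyb
          · by_cases h2 : y ∈ I L (c * (par b : ZMod p))
            · exact ih (par b) (by have := (hpar1 b h).2; omega) h2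
            · refine ⟨b, ?_⟩
              show y ∈ (if b ∈ R then _ else _)
              rw [if_neg h, mem_sdiff]
              exact ⟨hyb, h2⟩
      obtain ⟨b', hb'⟩ := key (d ⟨a, ha⟩) ⟨a, ha⟩ le_rfl hy
      rw [mem_biUnion]
      exact ⟨b', mem_univ _, hb'⟩
    refine (card_le_card hs).trans (card_biUnion_le.trans ?_)
    have hb : ∀ a ∈ (univ : Finset {a // a ∈ A}), (J a).card ≤
        (if a ∈ R then L else 0) + ((if a ∉ R ∧ t a then u.natAbs else 0) +
          (if a ∉ R ∧ ¬ t a then v.natAbs else 0)) := by
      intro a _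
      by_cases h : a ∈ R
      · have : J a = I L (c * (a : ZMod p)) := if_pos h
        rw [this, if_pos h]
        exact (card_I L _).trans (Nat.le_add_right _ _)
      · have hJ : J a = I L (c * (a : ZMod p)) \ I L (c * (par a : ZMod p)) := if_neg h
        rw [hJ, if_neg h, zero_add]
        have hadj := (hpar1 a h).1
        unfold gr at hadj
        rw [SimpleGraph.fromRel_adj] at hadj
        by_cases ht : t a
        · rw [if_pos ⟨h, ht⟩, if_neg (by tauto), add_zero]
          rcases ht with ht | ht
          · have e : c * (par a : ZMod p) = c * a + (u : ZMod p) := by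
              rw [← hu, ← ht]; ring
            rw [e]
            exact card_diff L _ u
          · have e : c * (par a : ZMod p) = c * a + ((-u : ℤ) : ZMod p) := by
              push_cast
              rw [← hu, ← ht]; ring
            rw [e]
            refine (card_diff L _ (-u)).trans ?_
            rw [Int.natAbs_neg]
        · rw [if_neg (by tauto), if_pos ⟨h, ht⟩, zero_add]
          have ht2 : (par a : ZMod p) - a = q₂ ∨ (a : ZMod p) - par a = q₂ := by
            have ht' : ¬ ((par a : ZMod p) - a = q₁ ∨ (a : ZMod p) - par a = q₁) := ht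
            tauto
          rcases ht2 with ht | ht
          · have e : c * (par a : ZMod p) = c * a + (v : ZMod p) := by
              rw [← hv, ← ht]; ring
            rw [e]
            exact card_diff L _ v
          · have e : c * (par a : ZMod p) = c * a + ((-v : ℤ) : ZMod p) := by
              push_cast
              rw [← hv, ← ht]; ring
            rw [e]
            refine (card_diff L _ (-v)).trans ?_
            rw [Int.natAbs_neg]
    refine (sum_le_sum hb).trans ?_
    rw [sum_add_distrib, sum_add_distrib, ← sum_filter, ← sum_filter, ← sum_filter, sum_const,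
      sum_const, sum_const, smul_eq_mul, smul_eq_mul, smul_eq_mul]
    refine Nat.add_le_add_right (Nat.mul_le_mul_right L ?_) _
    have hfin : Fintype (gr A q₁ q₂).ConnectedComponent := Fintype.ofFinite _
    rw [Nat.card_eq_fintype_card]
    exact card_le_card_of_injOn (t := univ) (gr A q₁ q₂).connectedComponentMk
      (fun _ _ => mem_univ _)
      (fun a ha b hb hab => hR (mem_filter.1 ha).2 (mem_filter.1 hb).2 hab)

theorem main_comp (hp : 1000 ≤ p) (A : Finset (ZMod p)) (hA : A.card ^ 2 ≤ p)
    (q₁ q₂ : ZMod p) (hq1 : q₁ ≠ 0) (hq2 : q₂ ≠ 0) (L : ℕ)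
    (hL : 4 * (Nat.card (gr A q₁ q₂).ConnectedComponent * L) ≤ p) :
    ∃ c : (ZMod p)ˣ, Nc949c4d7.HasGap (c • A) L := by
  classical
  obtain ⟨E₁, E₂, hE, hcard⟩ := card_union_comp A q₁ q₂
  have hn : 4 * (max E₁ 1 * max E₂ 1) ≤ p := by
    have h1 : (E₁ + E₂) ^ 2 ≤ p := (Nat.pow_le_pow_left hE 2).trans hA
    have h2 : 4 * (E₁ + E₂) ≤ p := by
      rcases Nat.lt_or_ge (E₁ + E₂) 4 with h | h
      · omega
      · nlinarith
    have h3 : 4 * (E₁ * E₂) ≤ p := by
      have : 4 * (E₁ * E₂) ≤ (E₁ + E₂) ^ 2 := by nlinarith [sq_nonneg ((E₁ : ℤ) - E₂), four_mul_le_sq_add E₁ E₂]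
      omega
    rcases Nat.eq_zero_or_pos E₁ with h0 | h0
    · rw [h0] at h2 ⊢
      rcases Nat.eq_zero_or_pos E₂ with h4 | h4
      · rw [h4]; simp; omega
      · rw [max_eq_left (show 1 ≤ E₂ from h4)]
        simp
        omega
    · rcases Nat.eq_zero_or_pos E₂ with h4 | h4
      · rw [h4] at h2 ⊢
        rw [max_eq_left (show 1 ≤ E₁ from h0)]
        simp
        omega
      · rw [max_eq_left (show 1 ≤ E₁ from h0), max_eq_left (show 1 ≤ E₂ from h4)]
        exact h3
  obtain ⟨c, hc, u, v, hu, hv, hs⟩ := exists_c (le_max_right E₁ 1) (le_max_right E₂ 1) hn hp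
    q₁ q₂ hq1 hq2
  refine ⟨Units.mk0 c hc, ?_⟩
  have u1 := hcard L c u v hu hv
  set U := A.biUnion (fun a => I L (c * a)) with hU
  have hodd : p % 2 = 1 := by
    rcases (Fact.out : p.Prime).eq_two_or_odd with h | h
    · omega
    · exact h
  have hlt : U.card < p := by
    have e1 : E₁ * u.natAbs ≤ max E₁ 1 * u.natAbs := Nat.mul_le_mul_right _ (le_max_left _ _)
    have e2 : E₂ * v.natAbs ≤ max E₂ 1 * v.natAbs := Nat.mul_le_mul_right _ (le_max_left _ _)
    generalize Nat.card (gr A q₁ q₂).ConnectedComponent * L = s at *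
    generalize max E₁ 1 * u.natAbs = s' at *
    generalize max E₂ 1 * v.natAbs = t' at *
    omega
  obtain ⟨x, hx⟩ : ∃ x, x ∉ U := by
    by_contra hcon
    have : U = univ := by
      ext z
      simp only [mem_univ, iff_true]
      by_contra h
      exact hcon ⟨z, h⟩
    rw [this, card_univ, ZMod.card] at hlt
    exact lt_irrefl _ hlt
  refine ⟨x, ?_⟩
  intro i hi hmem
  rw [mem_smul_finset] at hmem
  obtain ⟨a, ha, hax⟩ := hmem
  have hax' : c * a = x + (i : ZMod p) := hax
  apply hx
  rw [hU, mem_biUnion]
  refine ⟨a, ha, ?_⟩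
  unfold I
  rw [mem_image]
  exact ⟨i, mem_range.2 hi, by rw [hax']; ring⟩

end Pool.Agent.Lib.MP_3c1bce_co.TwoDiff
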